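import Mathlib
import Pool.Agent.H.MP_e5d137_al.Final

/-!
# Lower bounds for the higher-dimensional isoperimetric functions of `Aut(F_n)` and `Out(F_n)`
-/

open Pool.Agent.H.MP_e5d137_al
open scoped ENNReal

/-- Let `m ≥ 1`, `n ≥ 2m+1` and let `Γ` be the quotient of `Aut(F_n)` by a normal subgroup
contained in `Inn(F_n)`, for example `Aut(F_n)` or `Out(F_n)`.  The `m`-dimensional homological
isoperimetric function of `Γ` is bounded below by `exp(L^{1/m})`. -/
theorem Pool.Agent.H.MP_e5d137_al.Shelf.ExpRootLower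
    (m n : ℕ) (hm : 1 ≤ m) (hn : 2 * m + 1 ≤ n) {Γ : Type} [Group Γ]
    (π : MulAut (FreeGroup (Fin n)) →* Γ) (hπ : Function.Surjective π) (hker : π.ker ≤ Inn n)
    (K : GComplex Γ) (hK : K.FiniteTo (m + 1)) :
    Dominated (expRoot m) (fun L => (K.iso m L : ℝ≥0∞)) := by
  obtain ⟨s, hs⟩ := hK (m + 1) le_rfl
  obtain ⟨C, hC⟩ := abstract_bound m hm (mkData hn π hπ
    (by
      intro g g' h
      have h' : g⁻¹ * g' ∈ Inn n := by
        apply hker
        rw [MonoidHom.mem_ker, map_mul, map_inv, h, inv_mul_cancel]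
      obtain ⟨u, hu⟩ := h'
      exact ⟨u, by rw [hu, mul_inv_cancel_left]⟩)) K s hs
  exact dominated_of K m hm C hC
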