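import Mathlib
import Pool.Agent.H.MP_e5d137_al.UB.FinB

/-!
# Upper bounds for the higher-dimensional isoperimetric functions of `Aut(F_n)` and `Out(F_n)`
-/

open Pool.Agent.H.MP_e5d137_al
open scoped ENNReal

/-- Let `n ≥ 2` and `m ≥ 1`.  The `m`-dimensional homological isoperimetric functions of
`Aut(F_n)` and of `Out(F_n)` are bounded above by `exp(L^{1/m})`. -/
theorem Pool.Agent.H.MP_e5d137_al.Shelf.ExpRootUpper
    (m n : ℕ) (hm : 1 ≤ m) (hn : 2 ≤ n) :
    (∀ K : GComplex (MulAut (FreeGroup (Fin n))), K.FiniteTo (m + 1) →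
      Dominated (fun L => (K.iso m L : ℝ≥0∞)) (expRoot m)) ∧
    (∀ K : GComplex (Out n), K.FiniteTo (m + 1) →
      Dominated (fun L => (K.iso m L : ℝ≥0∞)) (expRoot m)) :=
  ⟨fun K hK => UB.upper_Aut n m hm K hK, fun K hK => UB.upper_Out n m hn hm K hK⟩
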